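import Pool.Agent.Helper74.CD.Defs

/-!
# Constant depth circuits and clique tests: the unbalanced word, the thresholds and the numbers
-/

set_option autoImplicit false

namespace CDep
open Finset

/-- `x ^ 2 = 2 y ^ 2` only for `x = y = 0` -/
theorem two_sq {x y : ℕ} (h : 0 < x + y) : x ^ 2 ≠ 2 * y ^ 2 := by
  intro hxy
  rcases Nat.eq_zero_or_pos y with hy | hy
  · subst hy
    have : x = 0 := by simpa using hxy
    omega
  · have h1 : Real.sqrt 2 = ((x : ℚ) / (y : ℚ) : ℚ) := by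
      rw [Real.sqrt_eq_iff_mul_self_eq (by norm_num) (by positivity)]
      push_cast
      have hy' : (y : ℝ) ≠ 0 := by positivity
      field_simp
      have h2 : (x : ℝ) ^ 2 = 2 * (y : ℝ) ^ 2 := by exact_mod_cast hxy
      linarith
    exact irrational_sqrt_two ⟨_, h1.symm⟩

/-- the imbalance of the word -/
theorem word {κ k' x y : ℕ} (h1 : 2 * κ ^ 2 ≤ k' ^ 2) (h2 : k' ^ 2 < 2 * (κ + 1) ^ 2) (hxy : 0 < x + y)
    (hs : 4 * (x + y) ^ 2 ≤ k') : (k' : ℝ) / (4 * (x + y)) ≤ |(κ : ℝ) * x - k' * y| := by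
  set r : ℝ := Real.sqrt 2 with hr
  have hr2 : r * r = 2 := Real.mul_self_sqrt (by norm_num)
  have hr1 : 1 ≤ r := by
    rw [hr, Real.le_sqrt (by norm_num) (by norm_num)]
    norm_num
  have hr0 : 0 < r := by linarith
  have hk0 : (0 : ℝ) ≤ k' := Nat.cast_nonneg _
  have hκ0 : (0 : ℝ) ≤ κ := Nat.cast_nonneg _
  have hx0 : (0 : ℝ) ≤ x := Nat.cast_nonneg _
  have hy0 : (0 : ℝ) ≤ y := Nat.cast_nonneg _
  have h1R : 2 * (κ : ℝ) ^ 2 ≤ (k' : ℝ) ^ 2 := by exact_mod_cast h1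
  have h2R : (k' : ℝ) ^ 2 < 2 * ((κ : ℝ) + 1) ^ 2 := by exact_mod_cast h2
  have e1 : r * κ ≤ k' := by
    apply le_of_sq_le_sq _ hk0
    calc (r * κ) ^ 2 = (r * r) * (κ : ℝ) ^ 2 := by ring
      _ = 2 * (κ : ℝ) ^ 2 := by rw [hr2]
      _ ≤ (k' : ℝ) ^ 2 := h1R
  have e2 : (k' : ℝ) ≤ r * (κ + 1) := by
    apply le_of_sq_le_sq _ (by positivity)
    calc (k' : ℝ) ^ 2 ≤ 2 * ((κ : ℝ) + 1) ^ 2 := h2R.le
      _ = (r * r) * ((κ : ℝ) + 1) ^ 2 := by rw [hr2]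
      _ = (r * (κ + 1)) ^ 2 := by ring
  have hxyR : (0 : ℝ) < (x : ℝ) + y := by exact_mod_cast hxy
  have hsR : 4 * ((x : ℝ) + y) ^ 2 ≤ k' := by exact_mod_cast hs
  -- `|x - r y| (x + r y) ≥ 1`
  have e3 : 1 ≤ |(x : ℝ) - r * y| * (x + r * y) := by
    have h3 : |(x : ℝ) - r * y| * (x + r * y) = |(x : ℝ) ^ 2 - 2 * (y : ℝ) ^ 2| := by
      have h3' : (x : ℝ) ^ 2 - 2 * (y : ℝ) ^ 2 = (x - r * y) * (x + r * y) := by
        rw [← hr2]
        ring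
      rw [h3', abs_mul, abs_of_nonneg (by positivity : (0 : ℝ) ≤ x + r * y)]
    rw [h3]
    have h4 : ((x : ℤ) ^ 2 - 2 * (y : ℤ) ^ 2) ≠ 0 := by
      intro h0
      apply two_sq hxy
      have : (x : ℤ) ^ 2 = 2 * (y : ℤ) ^ 2 := by linarith
      exact_mod_cast this
    have h5 : 1 ≤ |((x : ℤ) ^ 2 - 2 * (y : ℤ) ^ 2)| := Int.one_le_abs h4
    exact_mod_cast h5
  -- `|x - r y| ≥ 1 / (r (x + y))`
  have e4 : 1 ≤ |(x : ℝ) - r * y| * (r * (x + y)) := by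
    refine e3.trans (mul_le_mul_of_nonneg_left ?_ (abs_nonneg _))
    nlinarith
  -- compare
  have e5 : |r * ((κ : ℝ) * x - k' * y)| ≥ k' * |(x : ℝ) - r * y| - r * x := by
    have h6 : r * ((κ : ℝ) * x - k' * y) = k' * ((x : ℝ) - r * y) - (k' - r * κ) * x := by ring
    rw [h6]
    have h7 := abs_sub_abs_le_abs_sub ((k' : ℝ) * ((x : ℝ) - r * y)) ((k' - r * κ) * x)
    have h8 : |(k' : ℝ) * ((x : ℝ) - r * y)| = k' * |(x : ℝ) - r * y| := by
      rw [abs_mul, abs_of_nonneg hk0]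
    have h9 : |((k' : ℝ) - r * κ) * x| ≤ r * x := by
      rw [abs_of_nonneg (mul_nonneg (by linarith) hx0)]
      exact mul_le_mul_of_nonneg_right (by linarith) hx0
    rw [h8] at h7
    linarith
  rw [abs_mul, abs_of_pos hr0] at e5
  have e6 : k' / (r * (x + y)) ≤ k' * |(x : ℝ) - r * y| := by
    rw [div_le_iff₀ (by positivity), mul_assoc]
    calc (k' : ℝ) = k' * 1 := (mul_one _).symm
      _ ≤ k' * (|(x : ℝ) - r * y| * (r * (x + y))) := mul_le_mul_of_nonneg_left e4 hk0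
  -- divide by `r`
  have e7 : k' / (2 * (x + y)) - (x + y) ≤ |(κ : ℝ) * x - k' * y| := by
    have h10 : r * (k' / (2 * (x + y)) - (x + y)) ≤ r * |(κ : ℝ) * x - k' * y| := by
      calc r * (k' / (2 * (x + y)) - (x + y)) = k' / (r * (x + y)) - r * (x + y) := by
            have h11 : r * (k' / (2 * (x + y))) = k' / (r * (x + y)) := by
              rw [mul_div_assoc', div_eq_div_iff (by positivity) (by positivity)]
              calc r * (k' : ℝ) * (r * (x + y)) = (r * r) * k' * (x + y) := by ring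
                _ = k' * (2 * (x + y)) := by rw [hr2]; ring
            rw [mul_sub, h11]
        _ ≤ k' * |(x : ℝ) - r * y| - r * x := by nlinarith
        _ ≤ r * |(κ : ℝ) * x - k' * y| := e5
    exact le_of_mul_le_mul_left h10 hr0
  refine le_trans ?_ e7
  have e8 : (x : ℝ) + y ≤ k' / (4 * (x + y)) := by
    rw [le_div_iff₀ (by positivity)]
    nlinarith
  have e9 : (k' : ℝ) / (2 * (x + y)) = k' / (4 * (x + y)) + k' / (4 * (x + y)) := by
    field_simp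
    ring
  linarith

/-- the value of `om` -/
theorem om_eq {I J : Type} [Fintype I] [DecidableEq I] [Fintype J] [DecidableEq J] (κ k' : ℕ) (S : Finset (I ⊕ J)) :
    om (Fin κ → Bool) (Fin k' → Bool) S =
      (2 : ℝ) ^ (-(|(κ : ℝ) * S.toLeft.card - k' * S.toRight.card| / 2)) := by
  have h2 : (0 : ℝ) < 2 := by norm_num
  unfold om NN
  have e1 : (Fintype.card (Fin κ → Bool) : ℝ) ^ S.toLeft.card = (2 : ℝ) ^ ((κ : ℝ) * S.toLeft.card) := by
    rw [Fintype.card_fun, Fintype.card_bool, Fintype.card_fin]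
    push_cast
    rw [← pow_mul, ← Real.rpow_natCast]
    push_cast
    rfl
  have e2 : (Fintype.card (Fin k' → Bool) : ℝ) ^ S.toRight.card = (2 : ℝ) ^ ((k' : ℝ) * S.toRight.card) := by
    rw [Fintype.card_fun, Fintype.card_bool, Fintype.card_fin]
    push_cast
    rw [← pow_mul, ← Real.rpow_natCast]
    push_cast
    rfl
  rw [e1, e2]
  generalize (κ : ℝ) * S.toLeft.card = p
  generalize (k' : ℝ) * S.toRight.card = q
  have e3 : Real.sqrt ((2 : ℝ) ^ p * 2 ^ q) = 2 ^ ((p + q) / 2) := by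
    rw [← Real.rpow_add h2, Real.sqrt_eq_rpow, ← Real.rpow_mul h2.le]
    congr 1
    ring
  rw [e3]
  rcases le_total p q with h | h
  · rw [min_eq_left (Real.rpow_le_rpow_of_exponent_le (by norm_num) h), ← Real.rpow_sub h2,
      abs_of_nonpos (by linarith)]
    congr 1
    ring
  · rw [min_eq_right (Real.rpow_le_rpow_of_exponent_le (by norm_num) h), ← Real.rpow_sub h2,
      abs_of_nonneg (by linarith)]
    congr 1
    ring

/-- the thresholds -/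
theorem good {I J : Type} [Fintype I] [DecidableEq I] [Fintype J] [DecidableEq J] {κ k' β T : ℕ}
    (h1 : 2 * κ ^ 2 ≤ k' ^ 2) (h2 : k' ^ 2 < 2 * (κ + 1) ^ 2) (hβ : 0 < β) (hT : 4 * T ^ 2 ≤ k') :
    Good I J (Fin κ → Bool) (Fin k' → Bool) ((2 : ℝ) ^ (-((k' : ℝ) * β))) T (8 * β * T ^ 2) := by
  intro S hS hST
  have h2' : (0 : ℝ) < 2 := by norm_num
  rw [om_eq, ← Real.rpow_mul h2'.le]
  apply Real.rpow_le_rpow_of_exponent_le (by norm_num)
  have hc : S.toLeft.card + S.toRight.card = S.card := Finset.card_toLeft_add_card_toRight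
  have hpos : 0 < S.toLeft.card + S.toRight.card := by rw [hc]; exact hS.card_pos
  have hle : 4 * (S.toLeft.card + S.toRight.card) ^ 2 ≤ k' := by
    rw [hc]
    exact (Nat.mul_le_mul_left 4 (Nat.pow_le_pow_left hST.le 2)).trans hT
  have h3 := word h1 h2 hpos hle
  have hcR : (S.toLeft.card : ℝ) + S.toRight.card = S.card := by exact_mod_cast hc
  rw [hcR] at h3
  have hSpos : (0 : ℝ) < S.card := by exact_mod_cast hS.card_pos
  have hTR : (S.card : ℝ) < T := by exact_mod_cast hST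
  have hT0 : (0 : ℝ) < T := hSpos.trans hTR
  have hβR : (0 : ℝ) < β := by exact_mod_cast hβ
  have h4 : (k' : ℝ) * β * (S.card / ((8 * β * T ^ 2 : ℕ) : ℝ)) ≤ k' / (4 * S.card) / 2 := by
    push_cast
    rw [mul_div_assoc', div_div, div_le_div_iff₀ (by positivity) (by positivity)]
    have h5 : (S.card : ℝ) ^ 2 ≤ (T : ℝ) ^ 2 := by gcongr
    calc (k' : ℝ) * β * S.card * (4 * S.card * 2) = (8 * k' * β) * (S.card : ℝ) ^ 2 := by ring
      _ ≤ (8 * k' * β) * (T : ℝ) ^ 2 := mul_le_mul_of_nonneg_left h5 (by positivity)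
      _ = k' * (8 * β * (T : ℝ) ^ 2) := by ring
  linarith

/-- the sequence of the thresholds -/
def TT (β : ℕ) : ℕ → ℕ
  | 0 => 2
  | i + 1 => 8 * β * TT β i ^ 2

theorem TT_eq (β i : ℕ) : 8 * β * TT β i = (16 * β) ^ (2 ^ i) := by
  induction i with
  | zero =>
    unfold TT
    ring
  | succ i ih =>
    have : 8 * β * TT β (i + 1) = (8 * β * TT β i) ^ 2 := by
      rw [TT]
      ring
    rw [this, ih, ← pow_mul, pow_succ 2 i]

theorem TT_pos {β : ℕ} (hβ : 0 < β) (i : ℕ) : 0 < TT β i := by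
  induction i with
  | zero => unfold TT; norm_num
  | succ i ih => unfold TT; positivity

theorem TT_mono {β : ℕ} (hβ : 0 < β) (i : ℕ) : TT β i ≤ TT β (i + 1) := by
  rw [TT]
  have := TT_pos hβ i
  calc TT β i = 1 * TT β i := (one_mul _).symm
    _ ≤ (8 * β * TT β i) * TT β i := Nat.mul_le_mul_right _ (Nat.one_le_iff_ne_zero.2 (by positivity))
    _ = 8 * β * TT β i ^ 2 := by ring

theorem TT_le {β : ℕ} (hβ : 0 < β) (i : ℕ) : TT β i ≤ (16 * β) ^ (2 ^ i) := by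
  rw [← TT_eq]
  exact Nat.le_mul_of_pos_left _ (by positivity)

/-- **The explicit inequality.** -/
theorem core (Δ n k s β : ℕ) (hβ : 2 * Δ + 1 ≤ β) (ha : (16 * β) ^ (2 ^ (2 * Δ)) ≤ Nat.sqrt (Nat.log 2 n / 2) / 4)
    (hkn : 2 * k ≤ n) (hk : Nat.log 2 n / 2 ≤ k)
    (H : ∀ (a b κ k' u : ℕ) (θ : ℝ) (T : ℕ → ℕ), 0 < θ → θ ≤ 1 → b * k' ≤ a * κ → k = a + b + 1 + u →
      a * 2 ^ κ + b * 2 ^ k' + 1 + u ≤ n → T 0 = 2 → Monotone T → (∀ i, 1 ≤ T i) →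
      (∀ i < 2 * Δ, Good (Fin a) (Fin b) (Fin κ → Bool) (Fin k' → Bool) θ (T i) (T (i + 1))) →
      T (2 * Δ) ≤ a + b → (2 : ℝ) ^ (((k' * b : ℕ) - (κ * a : ℕ) : ℝ) / 2) ≤
        (2 ^ (a + b) * (2 ^ ((a + b) ^ 2)) ^ 2 * (s : ℝ) ^ 2) ^ Δ * s * θ) :
    (2 : ℝ) ^ (((Nat.log 2 n / 2 : ℕ) : ℝ) * β / 2) ≤ (s : ℝ) ^ (2 * Δ + 1) := by
  set k' := Nat.log 2 n / 2 with hk'
  set a := Nat.sqrt k' / 4 with ha'
  set κ := Nat.sqrt (k' ^ 2 / 2) with hκ
  set b := a * κ / k' with hb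
  have hβ0 : 0 < β := by omega
  have ha16 : 16 ≤ a := by
    refine le_trans ?_ ha
    calc 16 = 16 ^ 1 := (pow_one _).symm
      _ ≤ (16 * β) ^ 1 := Nat.pow_le_pow_left (by omega) 1
      _ ≤ (16 * β) ^ (2 ^ (2 * Δ)) := Nat.pow_le_pow_right (by omega) (Nat.one_le_pow _ _ (by norm_num))
  have hsa : 4 * a ≤ Nat.sqrt k' := Nat.mul_div_le _ _
  have hak : 16 * a ^ 2 ≤ k' := by
    calc 16 * a ^ 2 = (4 * a) * (4 * a) := by ring
      _ ≤ Nat.sqrt k' * Nat.sqrt k' := Nat.mul_le_mul hsa hsa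
      _ ≤ k' := Nat.sqrt_le k'
  have hk'0 : 0 < k' := by nlinarith
  have h1 : 2 * κ ^ 2 ≤ k' ^ 2 := by
    have := Nat.sqrt_le' (k' ^ 2 / 2)
    rw [← hκ] at this
    omega
  have h2 : k' ^ 2 < 2 * (κ + 1) ^ 2 := by
    have := Nat.lt_succ_sqrt' (k' ^ 2 / 2)
    rw [Nat.succ_eq_add_one, ← hκ] at this
    omega
  have hκk : κ ≤ k' := by nlinarith
  have hbk : b * k' ≤ a * κ := Nat.div_mul_le_self _ _
  have hba : b ≤ a := by
    rw [hb]
    calc a * κ / k' ≤ a * k' / k' := Nat.div_le_div_right (Nat.mul_le_mul_left _ hκk)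
      _ = a := Nat.mul_div_cancel _ hk'0
  have hbk2 : a * κ < (b + 1) * k' := by
    rw [hb, add_mul, one_mul]
    exact Nat.lt_div_mul_add hk'0
  clear_value b
  have hTa : ∀ i ≤ 2 * Δ, TT β i ≤ a := by
    intro i hi
    calc TT β i ≤ (16 * β) ^ (2 ^ i) := TT_le hβ0 i
      _ ≤ (16 * β) ^ (2 ^ (2 * Δ)) :=
          Nat.pow_le_pow_right (by omega) (Nat.pow_le_pow_right (by norm_num) hi)
      _ ≤ a := ha
  have h2k : 2 ^ k' * 2 ^ k' ≤ n := by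
    rw [← pow_add]
    have hn0 : n ≠ 0 := by
      rintro rfl
      simp at hk'
      omega
    exact (Nat.pow_le_pow_right (by norm_num) (by omega)).trans (Nat.pow_log_le_self 2 hn0)
  have hk2 : k' < 2 ^ k' := Nat.lt_two_pow_self
  have h4a : 4 * a ≤ 2 ^ k' := by nlinarith
  have h3 := H a b κ k' (k - a - b - 1) ((2 : ℝ) ^ (-((k' : ℝ) * β))) (TT β) (by positivity)
    (Real.rpow_le_one_of_one_le_of_nonpos (by norm_num) (by
      have : (0 : ℝ) ≤ (k' : ℝ) * β := by positivity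
      linarith)) hbk (by
      have : a + b + 1 ≤ k := by nlinarith
      omega) (by
      have h5 : a * 2 ^ κ ≤ a * 2 ^ k' := Nat.mul_le_mul_left _ (Nat.pow_le_pow_right (by norm_num) hκk)
      have h6 : b * 2 ^ k' ≤ a * 2 ^ k' := Nat.mul_le_mul_right _ hba
      have h7 : 4 * (a * 2 ^ k') ≤ n := by
        calc 4 * (a * 2 ^ k') = (4 * a) * 2 ^ k' := by ring
          _ ≤ 2 ^ k' * 2 ^ k' := Nat.mul_le_mul_right _ h4a
          _ ≤ n := h2k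
      omega) rfl (monotone_nat_of_le_succ (TT_mono hβ0)) (TT_pos hβ0) (by
      intro i hi
      refine good h1 h2 hβ0 ?_
      have h8 := hTa i hi.le
      calc 4 * TT β i ^ 2 ≤ 4 * a ^ 2 := Nat.mul_le_mul_left _ (Nat.pow_le_pow_left h8 2)
        _ ≤ k' := by nlinarith) ((hTa _ le_rfl).trans (Nat.le_add_right _ _))
  -- the numbers
  have h2' : (0 : ℝ) < 2 := by norm_num
  have hab : (a + b) ^ 2 * 4 ≤ k' := by nlinarith
  have hab2 : a + b ≤ (a + b) ^ 2 := Nat.le_self_pow (by norm_num) _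
  have h9 : (2 : ℝ) ^ (a + b) * (2 ^ ((a + b) ^ 2)) ^ 2 ≤ 2 ^ k' := by
    rw [← pow_mul, ← pow_add]
    exact pow_le_pow_right₀ (by norm_num) (by linarith)
  have h10 : (2 : ℝ) ^ (-((k' : ℝ) / 2)) ≤ (2 : ℝ) ^ (((k' * b : ℕ) - (κ * a : ℕ) : ℝ) / 2) := by
    apply Real.rpow_le_rpow_of_exponent_le (by norm_num)
    have : ((κ * a : ℕ) : ℝ) ≤ ((k' * b : ℕ) : ℝ) + k' := by
      have h11 : κ * a ≤ k' * b + k' := by nlinarith
      exact_mod_cast h11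
    linarith
  have h12 : (2 ^ (a + b) * (2 ^ ((a + b) ^ 2)) ^ 2 * (s : ℝ) ^ 2) ^ Δ * s * (2 : ℝ) ^ (-((k' : ℝ) * β)) ≤
      (2 : ℝ) ^ ((k' : ℝ) * Δ) * (s : ℝ) ^ (2 * Δ + 1) * (2 : ℝ) ^ (-((k' : ℝ) * β)) := by
    refine mul_le_mul_of_nonneg_right ?_ (by positivity)
    calc (2 ^ (a + b) * (2 ^ ((a + b) ^ 2)) ^ 2 * (s : ℝ) ^ 2) ^ Δ * s
        ≤ (2 ^ k' * (s : ℝ) ^ 2) ^ Δ * s := by
          gcongr
      _ = (2 : ℝ) ^ ((k' : ℝ) * Δ) * (s : ℝ) ^ (2 * Δ + 1) := by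
          rw [mul_pow, ← pow_mul, ← pow_mul, ← Real.rpow_natCast 2 (k' * Δ), pow_succ]
          push_cast
          ring
  have h13 := (h10.trans h3).trans h12
  -- divide
  have h14 : (2 : ℝ) ^ ((k' : ℝ) * β / 2) ≤ (2 : ℝ) ^ (-((k' : ℝ) / 2) - (k' : ℝ) * Δ + (k' : ℝ) * β) := by
    apply Real.rpow_le_rpow_of_exponent_le (by norm_num)
    have : (2 * Δ + 1 : ℝ) ≤ β := by exact_mod_cast hβ
    nlinarith [Nat.cast_nonneg (α := ℝ) k']
  refine h14.trans ?_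
  rw [Real.rpow_add h2', Real.rpow_sub h2', div_mul_eq_mul_div, div_le_iff₀ (by positivity)]
  calc (2 : ℝ) ^ (-((k' : ℝ) / 2)) * 2 ^ ((k' : ℝ) * β)
      ≤ ((2 : ℝ) ^ ((k' : ℝ) * Δ) * (s : ℝ) ^ (2 * Δ + 1) * (2 : ℝ) ^ (-((k' : ℝ) * β))) * 2 ^ ((k' : ℝ) * β) :=
        mul_le_mul_of_nonneg_right h13 (by positivity)
    _ = (s : ℝ) ^ (2 * Δ + 1) * 2 ^ ((k' : ℝ) * Δ) := by
        rw [mul_assoc, ← Real.rpow_add h2', neg_add_cancel, Real.rpow_zero]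
        ring

/-- the number of sets -/
theorem exists_beta (Δ : ℕ) : ∃ n₀ : ℕ, ∀ n : ℕ, n₀ ≤ n → ∃ β : ℕ, 2 * Δ + 1 ≤ β ∧
    (16 * β) ^ (2 ^ (2 * Δ)) ≤ Nat.sqrt (Nat.log 2 n / 2) / 4 ∧
    8 * (2 * Δ + 1) * (Real.log n) ^ ((1 : ℝ) / (4 * 2 ^ (2 * Δ))) ≤ β := by
  set D : ℕ := 2 ^ (2 * Δ) with hD
  have hD0 : 0 < D := by positivity
  set c : ℝ := 8 * (2 * Δ + 1) with hc
  have hc1 : 1 ≤ c := by
    rw [hc]
    have : (0 : ℝ) ≤ Δ := Nat.cast_nonneg _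
    linarith
  -- the constant
  set K : ℝ := (32 * c) ^ D with hK
  have hK1 : 1 ≤ K := one_le_pow₀ (by linarith)
  set Z : ℝ := 8 * K + 16 with hZ
  refine ⟨⌈Real.exp (Z ^ 4)⌉₊, fun n hn => ?_⟩
  have hn1 : Real.exp (Z ^ 4) ≤ n := (Nat.le_ceil _).trans (by exact_mod_cast hn)
  have hn0 : (0 : ℝ) < n := (Real.exp_pos _).trans_le hn1
  set x : ℝ := Real.log n with hx
  have hxZ : Z ^ 4 ≤ x := (Real.le_log_iff_exp_le hn0).2 hn1
  have hZ16 : 24 ≤ Z := by linarith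
  have hx1 : 1 ≤ x := le_trans (one_le_pow₀ (by linarith)) hxZ
  have hx0 : 0 ≤ x := by linarith
  set z : ℝ := x ^ ((1 : ℝ) / 4) with hz
  have hz4 : z ^ 4 = x := by
    rw [hz, ← Real.rpow_natCast, ← Real.rpow_mul hx0]
    norm_num
  have hz0 : 0 ≤ z := Real.rpow_nonneg hx0 _
  have hzZ : Z ≤ z := by
    apply le_of_pow_le_pow_left₀ (by norm_num : (4 : ℕ) ≠ 0) hz0
    rw [hz4]
    exact hxZ
  set w : ℝ := x ^ ((1 : ℝ) / (4 * (2 : ℝ) ^ (2 * Δ))) with hw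
  have hw1 : 1 ≤ w := Real.one_le_rpow hx1 (by positivity)
  have hwD : w ^ D = z := by
    rw [hw, ← Real.rpow_natCast, ← Real.rpow_mul hx0, hz]
    congr 1
    rw [hD]
    push_cast
    field_simp
  set β : ℕ := ⌈c * w⌉₊ with hβ
  have hcw : 1 ≤ c * w := by nlinarith
  have hβ1 : c * w ≤ β := Nat.le_ceil _
  have hβ2 : (β : ℝ) ≤ 2 * (c * w) := by
    have := Nat.ceil_lt_add_one (by linarith : 0 ≤ c * w)
    rw [← hβ] at this
    linarith
  refine ⟨β, ?_, ?_, hβ1⟩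
  · have h1 : ((2 * Δ + 1 : ℕ) : ℝ) ≤ β := by
      refine le_trans ?_ hβ1
      push_cast
      have : (0 : ℝ) ≤ Δ := Nat.cast_nonneg _
      nlinarith
    exact_mod_cast h1
  · -- the upper bound
    have h1 : ((16 * β : ℕ) : ℝ) ^ D ≤ K * z := by
      calc ((16 * β : ℕ) : ℝ) ^ D ≤ (32 * c * w) ^ D := by
            apply pow_le_pow_left₀ (by positivity)
            push_cast
            linarith
        _ = K * z := by rw [mul_pow, hwD]
    -- the lower bound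
    set ℓ := Nat.log 2 n with hℓ
    have hn0' : n ≠ 0 := by
      rintro rfl
      simp at hn0
    have h2 : x ≤ ℓ + 1 := by
      have h3 : (n : ℝ) ≤ 2 ^ (ℓ + 1) := by exact_mod_cast (Nat.lt_pow_succ_log_self (by norm_num : 1 < 2) n).le
      have h4 := Real.log_le_log hn0 h3
      rw [Real.log_pow] at h4
      push_cast at h4
      have h5 : Real.log 2 ≤ 1 := by
        have := Real.log_two_lt_d9
        linarith
      have h6 : (0 : ℝ) ≤ (ℓ : ℝ) + 1 := by positivity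
      nlinarith
    set k' := ℓ / 2 with hk'
    have h3 : (ℓ : ℝ) ≤ 2 * k' + 1 := by
      have : ℓ ≤ 2 * k' + 1 := by omega
      exact_mod_cast this
    set q := Nat.sqrt k' with hq
    have h4 : (k' : ℝ) ≤ (q + 1) ^ 2 := by
      have := (Nat.lt_succ_sqrt' k').le
      rw [Nat.succ_eq_add_one, ← hq] at this
      exact_mod_cast this
    have h5 : (q : ℝ) ≤ 4 * (q / 4 : ℕ) + 3 := by
      have : q ≤ 4 * (q / 4) + 3 := by omega
      exact_mod_cast this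
    set a : ℕ := q / 4 with ha
    have h6 : z ^ 4 ≤ 2 * (4 * (a : ℝ) + 4) ^ 2 + 2 := by
      rw [hz4]
      have h7 : ((q : ℝ) + 1) ^ 2 ≤ (4 * (a : ℝ) + 4) ^ 2 := by
        have : (0 : ℝ) ≤ q := Nat.cast_nonneg _
        apply pow_le_pow_left₀ (by positivity)
        linarith
      linarith
    have h7 : K * z ≤ a := by
      by_contra hcon
      push Not at hcon
      have ha0 : (0 : ℝ) ≤ a := Nat.cast_nonneg _
      have h8 : 4 * (a : ℝ) + 4 ≤ z * z := by nlinarith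
      have h9 : (4 * (a : ℝ) + 4) ≤ (4 * K + 4) * z := by nlinarith
      have h10 : (4 * (a : ℝ) + 4) ^ 2 ≤ (4 * K + 4) ^ 2 * z ^ 2 := by
        rw [← mul_pow]
        exact pow_le_pow_left₀ (by positivity) h9 2
      have h11 : (8 * K + 16) ^ 2 ≤ z ^ 2 := pow_le_pow_left₀ (by positivity) hzZ 2
      have hz2 : 1 ≤ z ^ 2 := one_le_pow₀ (by linarith)
      have h12 : z ^ 4 = z ^ 2 * z ^ 2 := by ring
      nlinarith
    have h8 : ((16 * β : ℕ) : ℝ) ^ D ≤ a := h1.trans h7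
    exact_mod_cast h8

/-- **The numbers** (the thresholds are nondecreasing and positive). -/
theorem num' (Δ : ℕ) : ∃ ε : ℝ, 0 < ε ∧ ∃ n₀ : ℕ, ∀ n k s : ℕ, n₀ ≤ n → Real.log n ≤ k → 2 * k ≤ n →
    (∀ (a b κ k' u : ℕ) (θ : ℝ) (T : ℕ → ℕ), 0 < θ → θ ≤ 1 → b * k' ≤ a * κ → k = a + b + 1 + u →
      a * 2 ^ κ + b * 2 ^ k' + 1 + u ≤ n → T 0 = 2 → Monotone T → (∀ i, 1 ≤ T i) →
      (∀ i < 2 * Δ, Good (Fin a) (Fin b) (Fin κ → Bool) (Fin k' → Bool) θ (T i) (T (i + 1))) →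
      T (2 * Δ) ≤ a + b → (2 : ℝ) ^ (((k' * b : ℕ) - (κ * a : ℕ) : ℝ) / 2) ≤
        (2 ^ (a + b) * (2 ^ ((a + b) ^ 2)) ^ 2 * (s : ℝ) ^ 2) ^ Δ * s * θ) →
    (n : ℝ) ^ ((Real.log n) ^ ε) ≤ s := by
  obtain ⟨n₀, hn₀⟩ := exists_beta Δ
  refine ⟨(1 : ℝ) / (4 * 2 ^ (2 * Δ)), by positivity, n₀, fun n k s hn hk hkn H => ?_⟩
  obtain ⟨β, hβ, ha, hw⟩ := hn₀ n hn
  set k' := Nat.log 2 n / 2 with hk'
  have hn0' : n ≠ 0 := by
    rintro rfl
    rw [hk'] at ha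
    simp at ha
    omega
  have hn0 : (0 : ℝ) < n := by positivity
  -- `k' ≤ k`
  have hlog : (Nat.log 2 n : ℝ) * Real.log 2 ≤ Real.log n := by
    have h1 : (2 : ℝ) ^ (Nat.log 2 n) ≤ n := by exact_mod_cast Nat.pow_log_le_self 2 hn0'
    have h2 := Real.log_le_log (by positivity) h1
    rwa [Real.log_pow] at h2
  have hkk : k' ≤ k := by
    have h1 : ((2 * k' : ℕ) : ℝ) ≤ Nat.log 2 n := by exact_mod_cast (by omega : 2 * k' ≤ Nat.log 2 n)
    have h2 := Real.log_two_gt_d9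
    have h3 : (k' : ℝ) ≤ k := by
      push_cast at h1
      have h4 : (0 : ℝ) ≤ Nat.log 2 n := Nat.cast_nonneg _
      nlinarith
    exact_mod_cast h3
  have h1 := core Δ n k s β hβ ha hkn hkk H
  -- the lower bound for `k'`
  have hk'1 : 1 ≤ k' := by
    by_contra hcon
    have h0 : k' = 0 := by omega
    rw [h0] at ha
    have : 1 ≤ (16 * β) ^ (2 ^ (2 * Δ)) := Nat.one_le_pow _ _ (by omega)
    simp at ha
    omega
  have h2 : (n : ℝ) ≤ 2 ^ ((4 * k' : ℕ) : ℝ) := by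
    rw [Real.rpow_natCast]
    have h3 := (Nat.lt_pow_succ_log_self (by norm_num : 1 < 2) n).le
    have h4 : 2 ^ (Nat.log 2 n + 1) ≤ 2 ^ (4 * k') := Nat.pow_le_pow_right (by norm_num) (by omega)
    exact_mod_cast h3.trans h4
  set w : ℝ := (Real.log n) ^ ((1 : ℝ) / (4 * 2 ^ (2 * Δ))) with hw'
  have hlog0 : 0 ≤ Real.log n := by
    refine le_trans ?_ hlog
    exact mul_nonneg (Nat.cast_nonneg _) (Real.log_nonneg (by norm_num))
  have hw0 : 0 ≤ w := Real.rpow_nonneg hlog0 _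
  have hm0 : 2 * Δ + 1 ≠ 0 := by omega
  apply le_of_pow_le_pow_left₀ hm0 (Nat.cast_nonneg _)
  refine le_trans ?_ h1
  calc ((n : ℝ) ^ w) ^ (2 * Δ + 1) ≤ ((2 ^ ((4 * k' : ℕ) : ℝ)) ^ w) ^ (2 * Δ + 1) := by
        gcongr
    _ = (2 : ℝ) ^ (((4 * k' : ℕ) : ℝ) * w * (2 * Δ + 1)) := by
        rw [← Real.rpow_mul (by norm_num), ← Real.rpow_natCast, ← Real.rpow_mul (by norm_num)]
        push_cast
        rfl
    _ ≤ (2 : ℝ) ^ ((k' : ℝ) * β / 2) := by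
        apply Real.rpow_le_rpow_of_exponent_le (by norm_num)
        push_cast
        have h5 : (0 : ℝ) ≤ k' := Nat.cast_nonneg _
        nlinarith

/-- **The numbers.** -/
theorem num (Δ : ℕ) : ∃ ε : ℝ, 0 < ε ∧ ∃ n₀ : ℕ, ∀ n k s : ℕ, n₀ ≤ n → Real.log n ≤ k → 2 * k ≤ n →
    (∀ (a b κ k' u : ℕ) (θ : ℝ) (T : ℕ → ℕ), 0 < θ → θ ≤ 1 → b * k' ≤ a * κ → k = a + b + 1 + u →
      a * 2 ^ κ + b * 2 ^ k' + 1 + u ≤ n → T 0 = 2 →
      (∀ i < 2 * Δ, Good (Fin a) (Fin b) (Fin κ → Bool) (Fin k' → Bool) θ (T i) (T (i + 1))) →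
      T (2 * Δ) ≤ a + b → (2 : ℝ) ^ (((k' * b : ℕ) - (κ * a : ℕ) : ℝ) / 2) ≤
        (2 ^ (a + b) * (2 ^ ((a + b) ^ 2)) ^ 2 * (s : ℝ) ^ 2) ^ Δ * s * θ) →
    (n : ℝ) ^ ((Real.log n) ^ ε) ≤ s := by
  obtain ⟨ε, hε, n₀, h⟩ := num' Δ
  exact ⟨ε, hε, n₀, fun n k s h1 h2 h3 H => h n k s h1 h2 h3
    fun a b κ k' u θ T e1 e2 e3 e4 e5 e6 _ _ e8 e9 => H a b κ k' u θ T e1 e2 e3 e4 e5 e6 e8 e9⟩

end CDep
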